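import Pool.Agent.Helper71.CK.Goals

/-!
# Cluster decomposition of a finitely supported function (packet CK-CLUSTER)
-/

set_option autoImplicit false

namespace Pool.Agent.Helper20.CK

open Pool.Agent.CK

lemma nrm_of_subset (f : ℤ →₀ ℤ) (s : Finset ℤ) (h : f.support ⊆ s) :
    nrm f = ∑ z ∈ s, (f z).natAbs := by
  unfold nrm
  exact Finsupp.sum_of_support_subset _ h _ (by simp)

lemma nrm_add_disj (f g : ℤ →₀ ℤ) (h : ∀ z, f z = 0 ∨ g z = 0) :
    nrm (f + g) = nrm f + nrm g := by
  classical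
  rw [nrm_of_subset (f+g) (f.support ∪ g.support) Finsupp.support_add,
    nrm_of_subset f (f.support ∪ g.support) Finset.subset_union_left,
    nrm_of_subset g (f.support ∪ g.support) Finset.subset_union_right, ← Finset.sum_add_distrib]
  refine Finset.sum_congr rfl fun z _ => ?_
  rcases h z with h | h <;> simp [h]

lemma gs_apply (h : S_FS) (R : ℕ) (p : ℤ) (f : ℤ →₀ ℤ) (z : ℤ) :
    gs R p f z = ∑ r ∈ Finset.range R, f (z - r * p) := by
  unfold gs
  rw [Finsupp.finsetSum_apply]
  exact Finset.sum_congr rfl fun r _ => h.1 _ _ _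

lemma gs_add (R : ℕ) (p : ℤ) (f g : ℤ →₀ ℤ) : gs R p (f + g) = gs R p f + gs R p g := by
  unfold gs
  simp [Finset.sum_add_distrib]

lemma sig_add (f g : ℤ →₀ ℤ) (h : S_FS) : sig (f + g) = sig f + sig g := by
  obtain ⟨-, -, -, -, -, -, -, h8, -⟩ := h
  exact (h8 f g).1

lemma sig_sh (s : ℤ) (f : ℤ →₀ ℤ) (h : S_FS) : sig (sh s f) = sig f := by
  obtain ⟨-, -, -, -, -, -, -, -, h9, -⟩ := h
  exact h9 s f

lemma sig_le (f : ℤ →₀ ℤ) (h : S_FS) : (sig f).natAbs ≤ nrm f := by
  obtain ⟨-, -, -, -, -, -, -, -, -, h10, -⟩ := h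
  exact h10 f

lemma mu_add (f g : ℤ →₀ ℤ) (h : S_FS) : mu (f + g) = mu f + mu g := by
  obtain ⟨-, -, -, -, -, -, -, -, -, -, h11, -⟩ := h
  exact (h11 f g).1

lemma sig_gs (h : S_FS) (R : ℕ) (p : ℤ) (f : ℤ →₀ ℤ) : sig (gs R p f) = R * sig f := by
  induction R with
  | zero => simp [gs, sig]
  | succ R ih =>
    have : gs (R + 1) p f = gs R p f + sh (R * p) f := by
      unfold gs
      rw [Finset.sum_range_succ]
    rw [this, sig_add _ _ h, ih, sig_sh _ _ h]
    push_cast
    ring

lemma gs_gs_support (h : S_FS) (R : ℕ) (p p' : ℤ) (f : ℤ →₀ ℤ) (z : ℤ)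
    (hz : gs R p (gs R p' f) z ≠ 0) :
    ∃ x y : ℕ, x < R ∧ y < R ∧ f (z - x * p - y * p') ≠ 0 := by
  rw [gs_apply h] at hz
  obtain ⟨x, hx, hx'⟩ := Finset.exists_ne_zero_of_sum_ne_zero hz
  rw [gs_apply h] at hx'
  obtain ⟨y, hy, hy'⟩ := Finset.exists_ne_zero_of_sum_ne_zero hx'
  exact ⟨x, y, Finset.mem_range.mp hx, Finset.mem_range.mp hy, hy'⟩

/-- the closeness relation on the support -/
def Close (R : ℕ) (p p' : ℤ) (z z' : ℤ) : Prop :=
  ∃ x y : ℤ, x.natAbs ≤ R ∧ y.natAbs ≤ R ∧ z' - z = x * p + y * p'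

lemma close_symm {R : ℕ} {p p' z z' : ℤ} (h : Close R p p' z z') : Close R p p' z' z := by
  obtain ⟨x, y, hx, hy, h⟩ := h
  refine ⟨-x, -y, by rwa [Int.natAbs_neg], by rwa [Int.natAbs_neg], ?_⟩
  linarith

/-- the closeness graph on a finite set -/
def cg (R : ℕ) (p p' : ℤ) (s : Finset ℤ) : SimpleGraph s where
  Adj a b := a ≠ b ∧ Close R p p' a b
  symm := ⟨fun _ _ h => ⟨h.1.symm, close_symm h.2⟩⟩
  loopless := ⟨fun _ h => h.1 rfl⟩

lemma walk_bound (R : ℕ) (p p' : ℤ) (s : Finset ℤ) (a b : s) (w : (cg R p p' s).Walk a b) :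
    ∃ x y : ℤ, y.natAbs ≤ w.length * R ∧ (b : ℤ) = a + x * p + y * p' := by
  induction w with
  | nil => exact ⟨0, 0, by simp, by simp⟩
  | cons hadj w ih =>
    obtain ⟨x, y, hy, hb⟩ := ih
    obtain ⟨x', y', -, hy', h'⟩ := hadj.2
    refine ⟨x + x', y + y', ?_, ?_⟩
    · calc (y + y').natAbs ≤ y.natAbs + y'.natAbs := Int.natAbs_add_le _ _
        _ ≤ w.length * R + R := Nat.add_le_add hy hy'
        _ = _ := by simp [SimpleGraph.Walk.length_cons]; ring
    · linear_combination hb + h'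

lemma cluster_aux (h : S_FS) (S R : ℕ) (p p' : ℤ) (hR : 1 ≤ R) :
    ∀ (n : ℕ) (κ : ℤ →₀ ℤ), κ.support.card ≤ n → nrm κ ≤ S →
      nrm (gs R p (gs R p' κ)) < R ^ 2 →
      ∃ X Y : ℤ, mu κ = p * X + p' * Y ∧ Y.natAbs ≤ nrm κ * (S * R) := by
  classical
  intro n
  induction n with
  | zero =>
    intro κ hc _ _
    have : κ = 0 := by
      rw [← Finsupp.support_eq_empty, ← Finset.card_eq_zero]; omega
    subst this
    exact ⟨0, 0, by simp [mu], by simp⟩
  | succ n ih =>
    intro κ hc hS hlt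
    by_cases h0 : κ = 0
    · subst h0
      exact ⟨0, 0, by simp [mu], by simp⟩
    obtain ⟨z₀, hz₀⟩ := Finsupp.support_nonempty_iff.mpr h0
    -- the component
    set G := cg R p p' κ.support with hG
    set Q : ℤ → Prop := fun z => ∃ hz : z ∈ κ.support, G.Reachable ⟨z₀, hz₀⟩ ⟨z, hz⟩ with hQ
    have hQz₀ : Q z₀ := ⟨hz₀, SimpleGraph.Reachable.refl _⟩
    set κC := κ.filter Q with hκC
    set κ' := κ.filter (fun z => ¬ Q z) with hκ'
    have hsum : κC + κ' = κ := Finsupp.filter_add_filter_not κ Q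
    have hdisj : ∀ z, κC z = 0 ∨ κ' z = 0 := by
      intro z
      by_cases hz : Q z
      · right
        rw [hκ', Finsupp.filter_apply_neg _ _ (by simpa using hz)]
      · left
        rw [hκC, Finsupp.filter_apply_neg _ _ hz]
    have hn : nrm κ = nrm κC + nrm κ' := by
      rw [← nrm_add_disj _ _ hdisj, hsum]
    have hsepa : ∀ z z' : ℤ, κC z ≠ 0 → κ' z' ≠ 0 → ¬ Close R p p' z z' := by
      intro z z' hz hz' hcl
      have hQz : Q z := by
        by_contra hq
        exact hz (Finsupp.filter_apply_neg _ _ hq)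
      have hκz' : κ z' ≠ 0 ∧ ¬ Q z' := by
        by_cases hq : Q z'
        · refine absurd ?_ hz'
          exact Finsupp.filter_apply_neg (fun z => ¬ Q z) κ (not_not_intro hq)
        · refine ⟨?_, hq⟩
          have e5 : κ' z' = κ z' := Finsupp.filter_apply_pos (fun z => ¬ Q z) κ hq
          rwa [e5] at hz'
      obtain ⟨hzs, hreach⟩ := hQz
      have hz's : z' ∈ κ.support := Finsupp.mem_support_iff.mpr hκz'.1
      apply hκz'.2
      refine ⟨hz's, hreach.trans ?_⟩
      by_cases hEq : z = z'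
      · subst hEq
        exact SimpleGraph.Reachable.refl _
      · apply SimpleGraph.Adj.reachable
        refine ⟨?_, hcl⟩
        intro hh
        exact hEq (congrArg Subtype.val hh)
    have hdisj2 : ∀ z, gs R p (gs R p' κC) z = 0 ∨ gs R p (gs R p' κ') z = 0 := by
      intro z
      by_contra hcon
      push Not at hcon
      obtain ⟨x, y, hx, hy, h1⟩ := gs_gs_support h R p p' κC z hcon.1
      obtain ⟨x', y', hx', hy', h2⟩ := gs_gs_support h R p p' κ' z hcon.2
      refine hsepa _ _ h1 h2 ⟨(x : ℤ) - x', (y : ℤ) - y', ?_, ?_, ?_⟩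
      · omega
      · omega
      · ring
    have hn2 : nrm (gs R p (gs R p' κ)) =
        nrm (gs R p (gs R p' κC)) + nrm (gs R p (gs R p' κ')) := by
      rw [← nrm_add_disj _ _ hdisj2, ← gs_add, ← gs_add, hsum]
    -- the augmentation of the component vanishes
    have hsig : sig κC = 0 := by
      by_contra hne
      have h1 : (sig (gs R p (gs R p' κC))).natAbs ≤ nrm (gs R p (gs R p' κC)) := sig_le _ h
      rw [sig_gs h, sig_gs h, Int.natAbs_mul, Int.natAbs_mul, Int.natAbs_natCast] at h1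
      have h2 : 1 ≤ (sig κC).natAbs := Int.natAbs_pos.mpr hne
      have h3 : R ^ 2 ≤ R * (R * (sig κC).natAbs) := by
        rw [pow_two]
        exact Nat.mul_le_mul_left _ (Nat.le_mul_of_pos_right _ h2)
      omega
    have hcard : κ.support.card ≤ nrm κ := by
      unfold nrm Finsupp.sum
      rw [Finset.card_eq_sum_ones]
      refine Finset.sum_le_sum fun z hz => ?_
      exact Int.natAbs_pos.mpr (Finsupp.mem_support_iff.mp hz)
    -- coordinates
    have hcoord : ∀ z, ∃ x y : ℤ, κC z ≠ 0 → y.natAbs ≤ S * R ∧ z = z₀ + x * p + y * p' := by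
      intro z
      by_cases hz : κC z ≠ 0
      · have hQz : Q z := by
          by_contra hq
          exact hz (Finsupp.filter_apply_neg _ _ hq)
        obtain ⟨hzs, hreach⟩ := hQz
        obtain ⟨w, hw⟩ := hreach.exists_isPath
        have hlen := hw.length_lt
        rw [Fintype.card_coe] at hlen
        obtain ⟨x, y, hy, hb⟩ := walk_bound R p p' κ.support _ _ w
        refine ⟨x, y, fun _ => ⟨hy.trans ?_, hb⟩⟩
        exact Nat.mul_le_mul_right _ (by omega)
      · exact ⟨0, 0, fun h => absurd h hz⟩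
    choose cx cy hcxy using hcoord
    have hmuC : mu κC = p * (∑ z ∈ κC.support, κC z * cx z) +
        p' * (∑ z ∈ κC.support, κC z * cy z) := by
      have e1 : mu κC = ∑ z ∈ κC.support, z * κC z := rfl
      have e2 : sig κC = ∑ z ∈ κC.support, κC z := rfl
      have e3 : mu κC = z₀ * sig κC + ∑ z ∈ κC.support, (z - z₀) * κC z := by
        rw [e1, e2, Finset.mul_sum, ← Finset.sum_add_distrib]
        exact Finset.sum_congr rfl fun z _ => by ring
      rw [e3, hsig, mul_zero, zero_add, Finset.mul_sum, Finset.mul_sum,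
        ← Finset.sum_add_distrib]
      refine Finset.sum_congr rfl fun z hz => ?_
      have hz' := (hcxy z (Finsupp.mem_support_iff.mp hz)).2
      have : z - z₀ = cx z * p + cy z * p' := by linarith
      rw [this]
      ring
    have hYC : (∑ z ∈ κC.support, κC z * cy z).natAbs ≤ nrm κC * (S * R) := by
      calc (∑ z ∈ κC.support, κC z * cy z).natAbs
          ≤ ∑ z ∈ κC.support, (κC z * cy z).natAbs := Int.natAbs_sum_le _ _
        _ ≤ ∑ z ∈ κC.support, (κC z).natAbs * (S * R) := by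
            refine Finset.sum_le_sum fun z hz => ?_
            rw [Int.natAbs_mul]
            exact Nat.mul_le_mul_left _ (hcxy z (Finsupp.mem_support_iff.mp hz)).1
        _ = nrm κC * (S * R) := by
            rw [← Finset.sum_mul]
            rfl
    -- induction
    have hcard' : κ'.support.card ≤ n := by
      have hss : κ'.support ⊂ κ.support := by
        refine Finset.ssubset_iff_subset_ne.mpr ⟨?_, ?_⟩
        · rw [hκ', Finsupp.support_filter]
          exact Finset.filter_subset _ _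
        · intro hh
          have : z₀ ∈ κ'.support := hh ▸ hz₀
          rw [hκ', Finsupp.support_filter, Finset.mem_filter] at this
          exact this.2 hQz₀
      have := Finset.card_lt_card hss
      omega
    obtain ⟨X, Y, hXY, hY⟩ := ih κ' hcard' (by omega) (by omega)
    refine ⟨(∑ z ∈ κC.support, κC z * cx z) + X, (∑ z ∈ κC.support, κC z * cy z) + Y, ?_, ?_⟩
    · have e4 : mu κ = mu κC + mu κ' := by rw [← mu_add _ _ h, hsum]
      rw [e4, hmuC, hXY]
      ring
    · rw [hn, Nat.add_mul]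
      exact (Int.natAbs_add_le _ _).trans (Nat.add_le_add hYC hY)

/-- **S_CLUSTER** -/
theorem cluster (h : S_FS) : S_CLUSTER := by
  intro S R p p' κ hR hS hlt
  obtain ⟨X, Y, h1, h2⟩ := cluster_aux h S R p p' hR _ κ le_rfl hS hlt
  refine ⟨X, Y, h1, h2.trans ?_⟩
  rw [mul_assoc]
  exact Nat.mul_le_mul_right _ hS

end Pool.Agent.Helper20.CK
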